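import Pool.Agent.H42.Stat

namespace Pool.Agent.Results.MP_52157e_lc.Full

open Cardinal

universe u

theorem result (κ : Cardinal.{u}) (hκ : κ.IsRegular) (hu : ℵ₀ < κ) :
    ∃ F : Filter κ.ord.ToType, F.NeBot ∧
      (∀ S : Set (Set κ.ord.ToType), #S < κ → (∀ s ∈ S, s ∈ F) → ⋂₀ S ∈ F) ∧
      (∀ C : Set κ.ord.ToType, IsClub C → C ∈ F) ∧
      ∃ A : (Order.succ κ).ord.ToType → Set κ.ord.ToType, (∀ i, A i ∈ F) ∧
        ∀ I : Set (Order.succ κ).ord.ToType, #I = κ → (⋂ i ∈ I, A i) ∉ F := by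
  have hT := Pool.Agent.H42.Reg.regUnc_toType hκ hu
  have hL := Pool.Agent.H42.Reg.regUnc_toType (isRegular_succ hu.le) (hu.trans (Order.lt_succ κ))
  have hcT : #κ.ord.ToType = κ := mk_ord_toType κ
  have hcL : #(Order.succ κ).ord.ToType = Order.succ κ := mk_ord_toType _
  have hcof : Order.cof κ.ord.ToType = κ := by rw [Ordinal.cof_toType, hκ.cof_ord]
  obtain ⟨A, hA⟩ := Pool.Agent.H42.Stat.exists_indep hT (L := (Order.succ κ).ord.ToType)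
    (fun i => (Order.lt_succ_iff.1 ((hL.init i).trans_eq hcL)).trans_eq hcT.symm)
  rw [hcT] at hA
  let l : Set (Set κ.ord.ToType) := {X | ∃ C, IsClub C ∧ ∃ J : Set (Order.succ κ).ord.ToType,
    #J < κ ∧ ∀ δ ∈ C, (∀ j ∈ J, δ ∈ A j) → δ ∈ X}
  have hl : ∀ S : Set (Set κ.ord.ToType), #S < κ → S ⊆ l → ⋂₀ S ∈ l := by
    intro S hS h
    choose C hC J hJ hX using fun s : S => h s.2
    refine ⟨⋂ s, C s, IsClub.iInter (by rw [hcof]; exact hu.ne') (by simpa [hcof] using hS) hC,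
      ⋃ s, J s, (card_iUnion_lt_iff_forall_of_isRegular hκ hS).2 hJ, fun δ hδ hj s hs => ?_⟩
    exact hX ⟨s, hs⟩ δ (Set.mem_iInter.1 hδ _) fun j h => hj j (Set.mem_iUnion.2 ⟨_, h⟩)
  have hmono : ∀ s t, s ∈ l → s ⊆ t → t ∈ l := by
    rintro s t ⟨C, hC, J, hJ, hX⟩ hst
    exact ⟨C, hC, J, hJ, fun δ h1 h2 => hst (hX δ h1 h2)⟩
  have h2 : (2 : Cardinal.{u}) < κ := (natCast_lt_aleph0 (n := 2)).trans hu
  have key : ∀ I : Set (Order.succ κ).ord.ToType, κ ≤ #I → (⋂ i ∈ I, A i) ∉ l := by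
    rintro I hI ⟨C, hC, J, hJ, hX⟩
    obtain ⟨i, hi1, hi2⟩ : ∃ i ∈ I, i ∉ J := by
      by_contra hc
      push Not at hc
      exact (hI.trans (mk_le_mk_of_subset hc)).not_gt hJ
    obtain ⟨δ, h3, h4⟩ := hA J hJ i hi2 hC
    exact h3.2 (Set.mem_iInter₂.1 (hX δ h4 h3.1) i hi1)
  refine ⟨Filter.ofCardinalInter l h2 hl hmono, ⟨fun h => ?_⟩, fun S h1 h3 => hl S h1 h3,
    fun C hC => ⟨C, hC, ∅, by simpa using aleph0_pos.trans hu, fun δ h _ => h⟩, A,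
    fun i => ⟨Set.univ, IsClub.univ, {i}, by simpa using one_lt_aleph0.trans hu,
      fun δ _ h => h i rfl⟩, fun I hI => key I hI.ge⟩
  apply key Set.univ (by rw [mk_univ, hcL]; exact Order.le_succ κ)
  show _ ∈ Filter.ofCardinalInter l h2 hl hmono
  rw [h]; exact Filter.mem_bot

end Pool.Agent.Results.MP_52157e_lc.Full
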